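import Pool.Agent.Run7.h745.AH.Iface

/-!
# MP_501a10_an, piece KZ: the ordered group `K_0` of the limit does not depend on `s`
-/

set_option autoImplicit false

noncomputable section

namespace Run7.h590.AH

open Filter Topology Matrix Pool.Agent.H188R3 Pool.Agent.TH249 Run7.h745 Run7.h745.AH

/-! ### Generalities -/

section gen

variable {A B : Type} [CStarAlgebra A] [CStarAlgebra B]

/-- the zero projection of size `n` -/
def zP (A : Type) [CStarAlgebra A] (n : ℕ) : Prj A := ⟨n, 0, by simp, by simp⟩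

lemma mk_zP (n : ℕ) : V.mk (zP A n) = 0 := by
  rw [V.zero_def, V.mk_eq]
  refine ⟨(0 : Matrix (Fin 0) (Fin n) A), ?_, ?_⟩
  · show (0 : Matrix (Fin 0) (Fin n) A)ᴴ * (0 : Matrix (Fin 0) (Fin n) A) = 0
    rw [Matrix.mul_zero]
  · ext i
    exact Fin.elim0 i

lemma trace_map' {I : Type} [Fintype I] (f : A →⋆ₐ[ℂ] B) (M : Matrix I I A) :
    Matrix.trace (M.map f) = f (Matrix.trace M) := by
  simp only [Matrix.trace, Matrix.diag_apply, Matrix.map_apply, map_sum]

lemma trace_add' (P Q : Prj A) :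
    Matrix.trace (P.add Q).mat = Matrix.trace P.mat + Matrix.trace Q.mat := by
  have h := Fintype.sum_equiv (finSumFinEquiv (m := P.n) (n := Q.n)).symm
    (fun i => (P.add Q).mat i i)
    (fun i => (fromBlocks P.mat 0 0 Q.mat) i i) (fun i => rfl)
  unfold Matrix.trace
  simp only [Matrix.diag_apply]
  rw [show ∑ i, (P.add Q).mat i i = _ from h, Fintype.sum_sum_type]
  simp

/-- an isomorphism of the monoids of classes of projections induces an isomorphism of `K_0` -/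
def kEquiv (e : V A ≃+ V B) : K0 A ≃+ K0 B :=
  AddMonoidHom.toAddEquiv
    (Algebra.GrothendieckAddGroup.lift ((K0.ofV B).comp (e : V A →+ V B)))
    (Algebra.GrothendieckAddGroup.lift ((K0.ofV A).comp (e.symm : V B →+ V A)))
    (by
      refine K0.hom_ext fun P => ?_
      have h1 : ∀ x : V A, Algebra.GrothendieckAddGroup.lift ((K0.ofV B).comp (e : V A →+ V B))
          (K0.ofV A x) = K0.ofV B (e x) := fun x => DFunLike.congr_fun
        ((Algebra.GrothendieckAddGroup.lift (M := V A) (G := K0 B)).left_inv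
          ((K0.ofV B).comp (e : V A →+ V B))) x
      have h2 : ∀ x : V B, Algebra.GrothendieckAddGroup.lift
          ((K0.ofV A).comp (e.symm : V B →+ V A))
          (K0.ofV B x) = K0.ofV A (e.symm x) := fun x => DFunLike.congr_fun
        ((Algebra.GrothendieckAddGroup.lift (M := V B) (G := K0 A)).left_inv
          ((K0.ofV A).comp (e.symm : V B →+ V A))) x
      show (Algebra.GrothendieckAddGroup.lift ((K0.ofV A).comp (e.symm : V B →+ V A)))
        ((Algebra.GrothendieckAddGroup.lift ((K0.ofV B).comp (e : V A →+ V B)))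
          (K0.ofV A (V.mk P))) = K0.ofV A (V.mk P)
      rw [h1, h2, e.symm_apply_apply])
    (by
      refine K0.hom_ext fun P => ?_
      have h1 : ∀ x : V A, Algebra.GrothendieckAddGroup.lift ((K0.ofV B).comp (e : V A →+ V B))
          (K0.ofV A x) = K0.ofV B (e x) := fun x => DFunLike.congr_fun
        ((Algebra.GrothendieckAddGroup.lift (M := V A) (G := K0 B)).left_inv
          ((K0.ofV B).comp (e : V A →+ V B))) x
      have h2 : ∀ x : V B, Algebra.GrothendieckAddGroup.lift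
          ((K0.ofV A).comp (e.symm : V B →+ V A))
          (K0.ofV B x) = K0.ofV A (e.symm x) := fun x => DFunLike.congr_fun
        ((Algebra.GrothendieckAddGroup.lift (M := V B) (G := K0 A)).left_inv
          ((K0.ofV A).comp (e.symm : V B →+ V A))) x
      show (Algebra.GrothendieckAddGroup.lift ((K0.ofV B).comp (e : V A →+ V B)))
        ((Algebra.GrothendieckAddGroup.lift ((K0.ofV A).comp (e.symm : V B →+ V A)))
          (K0.ofV B (V.mk P))) = K0.ofV B (V.mk P)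
      rw [h2, h1, e.apply_symm_apply])

lemma kEquiv_ofV (e : V A ≃+ V B) (x : V A) : kEquiv e (K0.ofV A x) = K0.ofV B (e x) :=
  DFunLike.congr_fun ((Algebra.GrothendieckAddGroup.lift (M := V A) (G := K0 B)).left_inv
    ((K0.ofV B).comp (e : V A →+ V B))) x

lemma kEquiv_pos (e : V A ≃+ V B) (x : K0 A) : x ∈ K0.pos A ↔ kEquiv e x ∈ K0.pos B := by
  constructor
  · rintro ⟨P, rfl⟩
    obtain ⟨Q, hQ⟩ := V.exists_rep (e (V.mk P))
    refine ⟨Q, ?_⟩
    show K0.ofV B (V.mk Q) = kEquiv e (K0.ofV A (V.mk P))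
    rw [kEquiv_ofV, hQ]
  · rintro ⟨Q, hQ⟩
    obtain ⟨P, hP⟩ := V.exists_rep (e.symm (V.mk Q))
    refine ⟨P, (kEquiv e).injective ?_⟩
    rw [← hQ]
    show kEquiv e (K0.ofV A (V.mk P)) = K0.ofV B (V.mk Q)
    rw [kEquiv_ofV, hP, e.apply_symm_apply]

/-- an additive relation which is a bijection -/
theorem exists_equiv {M M' : Type} [AddCommMonoid M] [AddCommMonoid M'] (R : M → M' → Prop)
    (h1 : ∀ x, ∃ x', R x x') (h2 : ∀ x', ∃ x, R x x') (h3 : ∀ x x' x'', R x x' → R x x'' → x' = x'')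
    (h4 : ∀ x y x', R x x' → R y x' → x = y)
    (h5 : ∀ x x' y y', R x x' → R y y' → R (x + y) (x' + y')) :
    ∃ e : M ≃+ M', ∀ x x', R x x' ↔ e x = x' := by
  choose f hf using h1
  choose g hg using h2
  refine ⟨{ toFun := f
            invFun := g
            left_inv := fun x => h4 _ _ _ (hg (f x)) (hf x)
            right_inv := fun x => h3 _ _ _ (hf (g x)) (hg x)
            map_add' := fun x y => h3 _ _ _ (hf (x + y)) (h5 _ _ _ _ (hf x) (hf y)) }, ?_⟩
  intro x x'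
  constructor
  · intro h
    exact h3 _ _ _ (hf x) h
  · rintro rfl
    exact hf x

end gen

/-! ### The connecting maps and the centre-valued trace -/

/-- the composition of `k` connecting maps -/
def tH (s : ℕ → Bool) (n : ℕ) : (k : ℕ) → A s n →⋆ₐ[ℂ] A s (n + k)
  | 0 => StarAlgHom.id ℂ _
  | k + 1 => (φ s (n + k)).comp (tH s n k)

lemma j_tH {s : ℕ → Bool} {L : Type} [CStarAlgebra L] {j : ∀ n, A s n →⋆ₐ[ℂ] L}
    (h : IsLim (φ s) j) (n k : ℕ) (a : A s n) : j (n + k) (tH s n k a) = j n a := by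
  induction k with
  | zero => rfl
  | succ k ih =>
    rw [← ih]
    exact h.comp (n + k) (tH s n k a)

lemma map_tH {s : ℕ → Bool} {L : Type} [CStarAlgebra L] {j : ∀ n, A s n →⋆ₐ[ℂ] L}
    (h : IsLim (φ s) j) (n k : ℕ) (Q : Prj (A s n)) :
    (Q.map (tH s n k)).map (j (n + k)) = Q.map (j n) := by
  have h1 : (j (n + k)).comp (tH s n k) = j n := by
    ext a
    exact j_tH h n k a
  rw [Prj.map_map, h1]

lemma nt_add {s : ℕ → Bool} {n : ℕ} (a b : A s n) (t : Fin (n + 1)) (y : X n t) :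
    nt (a + b) t y = nt a t y + nt b t y := by
  unfold nt ntr
  rw [← add_div]
  congr 1
  rw [← Finset.sum_add_distrib]
  rfl

lemma nt_one {s : ℕ → Bool} {n : ℕ} (t : Fin (n + 1)) (y : X n t) :
    nt (1 : A s n) t y = 1 := by
  unfold nt ntr
  have h : ∀ i : Fin (N s n t), ((1 : A s n) t y).en i i = 1 := by
    intro i
    show (1 : MA (Fin (N s n t)) ℂ).en i i = 1
    rw [MA.en_one]
    simp
  rw [Finset.sum_congr rfl fun i _ => h i]
  simp only [Finset.sum_const, Finset.card_univ, Fintype.card_fin, nsmul_eq_mul, mul_one]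
  exact div_self (by exact_mod_cast (N_pos s n t).ne')

lemma const_ne (n : ℕ) : ((q n : ℂ) + 4 * (n + 1) ^ 3) ≠ 0 := by
  have h : ((q n + 4 * (n + 1) ^ 3 : ℕ) : ℂ) ≠ 0 := by
    exact_mod_cast (Nat.add_pos_left (q_pos n) _).ne'
  push_cast at h
  exact h

/-- equality of centre-valued traces -/
def Same {s s' : ℕ → Bool} {n : ℕ} (a : A s n) (a' : A s' n) : Prop :=
  ∀ t y, nt a t y = nt a' t y

lemma Same.φ (hT : S_TRF) {s s' : ℕ → Bool} {n : ℕ} {a : A s n} {a' : A s' n} (h : Same a a') :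
    Same (φ s n a) (φ s' n a') := by
  intro t y
  have h1 := hT s n a t y
  have h2 := hT s' n a' t y
  refine mul_right_cancel₀ (const_ne n) ?_
  rw [h1, h2]
  have h3 : ∀ t y, nt a t y = nt a' t y := h
  simp only [h3]

lemma Same.tH (hT : S_TRF) {s s' : ℕ → Bool} {n : ℕ} {a : A s n} {a' : A s' n} (h : Same a a')
    (k : ℕ) : Same (tH s n k a) (tH s' n k a') := by
  induction k with
  | zero => exact h
  | succ k ih => exact ih.φ hT

lemma Same.symm {s s' : ℕ → Bool} {n : ℕ} {a : A s n} {a' : A s' n} (h : Same a a') :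
    Same a' a := fun t y => (h t y).symm

lemma Same.trans {s s' s'' : ℕ → Bool} {n : ℕ} {a : A s n} {a' : A s' n} {a'' : A s'' n}
    (h : Same a a') (h' : Same a' a'') : Same a a'' := fun t y => (h t y).trans (h' t y)

lemma trace_pmap {A B : Type} [CStarAlgebra A] [CStarAlgebra B] (f : A →⋆ₐ[ℂ] B) (Q : Prj A) :
    Matrix.trace (Q.map f).mat = f (Matrix.trace Q.mat) := trace_map' f Q.mat

/-- projections with the same image have the same centre-valued trace at a later level -/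
lemma same_later (hRK : S_RK) {s : ℕ → Bool} {L : Type} [CStarAlgebra L]
    {j : ∀ n, A s n →⋆ₐ[ℂ] L} (hL : IsLim (φ s) j) {n : ℕ} (Q P : Prj (A s n))
    (h : V.mk (Q.map (j n)) = V.mk (P.map (j n))) :
    ∃ k, Same (tH s n k (Matrix.trace Q.mat)) (tH s n k (Matrix.trace P.mat)) := by
  have e1 : V.mk (Q.add (zP _ P.n)) = V.mk Q := by
    rw [← V.mk_add, mk_zP, add_zero]
  have e2 : V.mk ((zP _ Q.n).add P) = V.mk P := by
    rw [← V.mk_add, mk_zP, zero_add]
  have h1 : V.mk ((Q.add (zP _ P.n)).map (j n)) = V.mk (((zP _ Q.n).add P).map (j n)) := by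
    rw [← V.map_mk, ← V.map_mk, e1, e2, V.map_mk, V.map_mk, h]
  have h2 : Eqv ((Q.add (zP _ P.n)).mat.map (j n)) (((zP _ Q.n).add P).mat.map (j n)) :=
    V.mk_eq.1 h1
  obtain ⟨m, hm, h3⟩ := lim2 (I := Fin (Q.n + P.n)) hL (Q.add (zP _ P.n)).mat
    ((zP _ Q.n).add P).mat (Q.add (zP _ P.n)).isPrj ((zP _ Q.n).add P).isPrj h2
  obtain ⟨k, rfl⟩ := Nat.exists_eq_add_of_le hm
  refine ⟨k, ?_⟩
  have h4 := h3 (tH s n k) (j_tH hL n k)
  have h5 : V.mk ((Q.add (zP _ P.n)).map (tH s n k)) = V.mk (((zP _ Q.n).add P).map (tH s n k)) :=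
    V.mk_eq.2 h4
  rw [← V.map_mk, ← V.map_mk, e1, e2, V.map_mk, V.map_mk, V.mk_eq] at h5
  have h6 := (hRK s (n + k)).2.2.1 _ _ h5
  intro t y
  have h7 := h6 t y
  rwa [trace_pmap, trace_pmap] at h7

lemma four_div (s : ℕ → Bool) (n t r : ℕ) :
    4 * ((r : ℂ) / N s n t) = ((co s t * r : ℕ) : ℂ) / k n := by
  have h1 : ((amp s t : ℕ) : ℂ) ≠ 0 := by exact_mod_cast (amp_pos s t).ne'
  have h2 : ((k n : ℕ) : ℂ) ≠ 0 := by exact_mod_cast (k_pos n).ne'
  have h3 : ((amp s t : ℕ) : ℂ) * ((co s t : ℕ) : ℂ) = 4 := by exact_mod_cast amp_co s t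
  unfold N
  push_cast
  rw [← h3]
  field_simp

/-- after one step a centre-valued trace is also a centre-valued trace for any other `s'` -/
lemma exists_same (hRK : S_RK) (hT : S_TRF) (s s' : ℕ → Bool) (n : ℕ) (Q : Prj (A s n)) :
    ∃ Q' : Prj (A s' (n + 1)), Same (φ s n (Matrix.trace Q.mat)) (Matrix.trace Q'.mat) := by
  obtain ⟨r, hr⟩ := (hRK s n).1 Q
  have hk : ((k n : ℕ) : ℂ) ≠ 0 := by exact_mod_cast (k_pos n).ne'
  set S : ℕ := ∑ c : Cn n, co s c.2.2 * r c.2.2 with hS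
  set R : Fin (n + 2) → ℕ := fun t' => (if h : (t' : ℕ) ≤ n then qq n * (co s t' * r (ft h)) else
    qq n * (co s 0 * r 0)) + S with hR
  obtain ⟨Q', hQ'⟩ := (hRK s' (n + 1)).2.2.2 fun t' => amp s' t' * R t'
  refine ⟨Q', fun t' y => ?_⟩
  rw [hQ' t' y]
  have h1 := hT s n (Matrix.trace Q.mat) t' y
  have h2 : 4 * ∑ c : Cn n, nt (Matrix.trace Q.mat) c.2.2 (pt n c) = (S : ℂ) / k n := by
    rw [Finset.mul_sum, hS, Nat.cast_sum, Finset.sum_div]
    refine Finset.sum_congr rfl fun c _ => ?_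
    rw [hr]
    exact four_div s n c.2.2 (r c.2.2)
  have h3 : (if h : (t' : ℕ) ≤ n then ∑ i : Fin (q n), nt (Matrix.trace Q.mat) (ft h) (blk n t' i y)
        else (q n : ℂ) * nt (Matrix.trace Q.mat) 0 (x0 n 0)) = ((R t' : ℂ) - S) / k n := by
    rw [hR]
    by_cases h : (t' : ℕ) ≤ n
    · rw [dif_pos h]
      simp only [dif_pos h]
      have h4 : ∀ i : Fin (q n), nt (Matrix.trace Q.mat) (ft h) (blk n t' i y) =
          (r (ft h) : ℂ) / N s n t' := fun i => hr (ft h) (blk n t' i y)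
      rw [Finset.sum_congr rfl fun i _ => h4 i, Finset.sum_const, Finset.card_univ,
        Fintype.card_fin, nsmul_eq_mul]
      have h5 := four_div s n t' (r (ft h))
      push_cast
      rw [add_sub_cancel_right]
      calc ((q n : ℕ) : ℂ) * ((r (ft h) : ℂ) / N s n t')
          = (qq n : ℂ) * (4 * ((r (ft h) : ℂ) / N s n t')) := by
            unfold q; push_cast; ring
        _ = (qq n : ℂ) * (((co s t' * r (ft h) : ℕ) : ℂ) / k n) := by rw [h5]
        _ = _ := by push_cast; ring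
    · rw [dif_neg h]
      simp only [dif_neg h]
      rw [hr]
      have h5 := four_div s n 0 (r 0)
      push_cast
      rw [add_sub_cancel_right]
      calc ((q n : ℕ) : ℂ) * ((r 0 : ℂ) / N s n ((0 : Fin (n + 1)) : ℕ))
          = (qq n : ℂ) * (4 * ((r 0 : ℂ) / N s n 0)) := by
            unfold q; push_cast; simp only [Fin.val_zero]; ring
        _ = (qq n : ℂ) * (((co s 0 * r 0 : ℕ) : ℂ) / k n) := by rw [h5]
        _ = _ := by push_cast; ring
  rw [h2, h3] at h1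
  have h6 : nt (φ s n (Matrix.trace Q.mat)) t' y * ((q n : ℂ) + 4 * (n + 1) ^ 3) =
      (R t' : ℂ) / k n := by
    rw [h1]; ring
  have hD := const_ne n
  have h7 : ((k (n + 1) : ℕ) : ℂ) = ((q n : ℂ) + 4 * (n + 1) ^ 3) * k n := by
    rw [k_succ]; push_cast; ring
  have h8 : ((amp s' t' : ℕ) : ℂ) ≠ 0 := by exact_mod_cast (amp_pos s' t').ne'
  have h9 : nt (φ s n (Matrix.trace Q.mat)) t' y = (R t' : ℂ) / k (n + 1) := by
    rw [h7, eq_div_iff (mul_ne_zero hD hk), ← mul_assoc, h6, div_mul_cancel₀ _ hk]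
  rw [h9]
  have h10 : ((k (n + 1) : ℕ) : ℂ) ≠ 0 := by exact_mod_cast (k_pos (n + 1)).ne'
  unfold N
  push_cast
  field_simp

/-! ### The relation -/

section rel

variable {s s' : ℕ → Bool} {L : Type} [CStarAlgebra L] {L' : Type} [CStarAlgebra L']

/-- classes represented by projections with the same centre-valued trace -/
def Rel (j : ∀ n, A s n →⋆ₐ[ℂ] L) (j' : ∀ n, A s' n →⋆ₐ[ℂ] L') (x : V L) (x' : V L') : Prop :=
  ∃ (n : ℕ) (Q : Prj (A s n)) (Q' : Prj (A s' n)), V.mk (Q.map (j n)) = x ∧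
    V.mk (Q'.map (j' n)) = x' ∧ Same (Matrix.trace Q.mat) (Matrix.trace Q'.mat)

variable {j : ∀ n, A s n →⋆ₐ[ℂ] L} {j' : ∀ n, A s' n →⋆ₐ[ℂ] L'}

lemma Rel.symm {x : V L} {x' : V L'} (h : Rel j j' x x') : Rel j' j x' x := by
  obtain ⟨n, Q, Q', h1, h2, h3⟩ := h
  exact ⟨n, Q', Q, h2, h1, h3.symm⟩

lemma Rel.push (hT : S_TRF) (hL : IsLim (φ s) j) (hL' : IsLim (φ s') j') {x : V L} {x' : V L'}
    (h : Rel j j' x x') : ∃ n, ∀ m, n ≤ m → ∃ (Q : Prj (A s m)) (Q' : Prj (A s' m)),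
      V.mk (Q.map (j m)) = x ∧ V.mk (Q'.map (j' m)) = x' ∧
        Same (Matrix.trace Q.mat) (Matrix.trace Q'.mat) := by
  obtain ⟨n, Q, Q', h1, h2, h3⟩ := h
  refine ⟨n, fun m hm => ?_⟩
  obtain ⟨k, rfl⟩ := Nat.exists_eq_add_of_le hm
  refine ⟨Q.map (tH s n k), Q'.map (tH s' n k), ?_, ?_, ?_⟩
  · rw [map_tH hL, h1]
  · rw [map_tH hL', h2]
  · rw [trace_pmap, trace_pmap]
    exact h3.tH hT k

lemma Rel.unique (hRK : S_RK) (hT : S_TRF) (hL : IsLim (φ s) j) (hL' : IsLim (φ s') j') {x : V L}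
    {x' x'' : V L'} (h : Rel j j' x x') (h' : Rel j j' x x'') : x' = x'' := by
  obtain ⟨n1, h1⟩ := h.push hT hL hL'
  obtain ⟨n2, h2⟩ := h'.push hT hL hL'
  set m := max n1 n2 with hm
  obtain ⟨Q, Q', a1, a2, a3⟩ := h1 m (le_max_left _ _)
  obtain ⟨P, P', b1, b2, b3⟩ := h2 m (le_max_right _ _)
  obtain ⟨k, hk⟩ := same_later hRK hL Q P (a1.trans b1.symm)
  have h3 : Same (tH s' m k (Matrix.trace Q'.mat)) (tH s' m k (Matrix.trace P'.mat)) :=
    ((a3.tH hT k).symm.trans hk).trans (b3.tH hT k)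
  have h4 : Eqv (Q'.map (tH s' m k)).mat (P'.map (tH s' m k)).mat := by
    refine (hRK s' (m + k)).2.1 _ _ ?_
    intro t y
    rw [trace_pmap, trace_pmap]
    exact h3 t y
  have h5 : V.mk (Q'.map (tH s' m k)) = V.mk (P'.map (tH s' m k)) := V.mk_eq.2 h4
  have h6 := congrArg (V.map (j' (m + k))) h5
  rw [V.map_mk, V.map_mk, map_tH hL', map_tH hL', a2, b2] at h6
  exact h6

lemma Rel.total (hRK : S_RK) (hT : S_TRF) (hL : IsLim (φ s) j) (x : V L) :
    ∃ x' : V L', Rel j j' x x' := by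
  obtain ⟨P, rfl⟩ := V.exists_rep x
  obtain ⟨n, hn⟩ := lim1 hL P.mat P.isPrj
  obtain ⟨P', hP', h1⟩ := hn n le_rfl
  obtain ⟨Q', hQ'⟩ := exists_same hRK hT s s' n ⟨P.n, P', hP'⟩
  refine ⟨V.mk (Q'.map (j' (n + 1))), n + 1, Prj.map (φ s n) ⟨P.n, P', hP'⟩, Q', ?_, rfl, ?_⟩
  · have h2 : Prj.map (j (n + 1)) (Prj.map (φ s n) ⟨P.n, P', hP'⟩) =
        Prj.map (j n) ⟨P.n, P', hP'⟩ := map_tH hL n 1 ⟨P.n, P', hP'⟩
    rw [h2]
    exact (V.mk_eq.2 h1).symm
  · rw [trace_pmap]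
    exact hQ'

lemma Rel.add (hT : S_TRF) (hL : IsLim (φ s) j) (hL' : IsLim (φ s') j') {x y : V L}
    {x' y' : V L'} (h : Rel j j' x x') (h' : Rel j j' y y') : Rel j j' (x + y) (x' + y') := by
  obtain ⟨n1, h1⟩ := h.push hT hL hL'
  obtain ⟨n2, h2⟩ := h'.push hT hL hL'
  obtain ⟨Q, Q', a1, a2, a3⟩ := h1 (max n1 n2) (le_max_left _ _)
  obtain ⟨P, P', b1, b2, b3⟩ := h2 (max n1 n2) (le_max_right _ _)
  refine ⟨max n1 n2, Q.add P, Q'.add P', ?_, ?_, ?_⟩
  · rw [Prj.map_add_eqv, ← V.mk_add, a1, b1]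
  · rw [Prj.map_add_eqv, ← V.mk_add, a2, b2]
  · intro t z
    rw [trace_add', trace_add', nt_add, nt_add, a3 t z, b3 t z]

lemma trace_of {A : Type} [CStarAlgebra A] (p : A) (hp : IsStarProjection p) :
    Matrix.trace (Prj.of p hp).mat = p := by
  show Matrix.trace (Matrix.of fun (_ _ : Fin 1) => p) = p
  simp [Matrix.trace]

lemma Rel.unit : Rel j j' (V.mk (Prj.of (1 : L) (IsStarProjection.one L)))
    (V.mk (Prj.of (1 : L') (IsStarProjection.one L'))) := by
  have h : ∀ {A B : Type} [CStarAlgebra A] [CStarAlgebra B] (f : A →⋆ₐ[ℂ] B),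
      (Prj.of (1 : A) (IsStarProjection.one A)).map f =
        Prj.of (1 : B) (IsStarProjection.one B) := by
    intro A B _ _ f
    have h1 : f 1 = 1 := map_one f
    rw [Prj.map_of]
    congr 1
  refine ⟨0, Prj.of 1 (IsStarProjection.one _), Prj.of 1 (IsStarProjection.one _), ?_, ?_, ?_⟩
  · rw [h]
  · rw [h]
  · intro t y
    rw [trace_of, trace_of, nt_one, nt_one]

end rel

/-- **Piece KZ.** -/
theorem t_KZ : S_KZ := by
  intro hRK hT s s' L _ j L' _ j' hL hL'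
  obtain ⟨e, he⟩ := exists_equiv (Rel j j') (fun x => Rel.total hRK hT hL x)
    (fun x' => by
      obtain ⟨x, hx⟩ := Rel.total (j := j') (j' := j) hRK hT hL' x'
      exact ⟨x, hx.symm⟩)
    (fun x x' x'' h h' => h.unique hRK hT hL hL' h')
    (fun x y x' h h' => Rel.unique hRK hT hL' hL h.symm h'.symm)
    (fun x x' y y' h h' => h.add hT hL hL' h')
  refine ⟨kEquiv e, kEquiv_pos e, ?_, ?_⟩
  · show kEquiv e (K0.ofV L (V.mk _)) = K0.ofV L' (V.mk _)
    rw [kEquiv_ofV, (he _ _).1 Rel.unit]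
  · intro P
    obtain ⟨n, Q, Q', h1, h2, h3⟩ := (he (V.mk P) _).2 rfl
    refine ⟨n, Q, Q', ?_, ?_, h3⟩
    · show K0.ofV L (V.mk P) = K0.ofV L (V.mk _)
      rw [h1]
    · show kEquiv e (K0.ofV L (V.mk P)) = K0.ofV L' (V.mk _)
      rw [kEquiv_ofV, h2]

end Run7.h590.AH
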